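import Mathlib
import Pool.Agent.Run7.h628.Weih4

/-!
# Ramsey for pairs is not uniformly reducible to Hindman for sums of exactly two elements

For `j ≥ 2` and `k ≤ j`, stable Ramsey's theorem for pairs and `j` colours is not Weihrauch reducible
to `HT^{=2}_k`, not even with continuous instead of computable functionals. In particular
`RT^2_k` is not Weihrauch reducible to `HT^{=2}_k`, for every `k ≥ 2`: there are no uniform
procedures which turn an instance `f` of `RT^2_k` into an instance `c` of `HT^{=2}_k`, and `f` and any
solution of `c` into a solution of `f`.

Proof idea. Suppose there is such a reduction, and consider forcing conditions which fix a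
finite square and finitely many rows of the stable colouring `f`. If below some condition some
colour `i` could be avoided on arbitrarily long far away intervals of even numbers, then we could
code arbitrary stable colourings with `j` colours into colourings of pairs with `k - 1` colours,
contradicting that stable Ramsey for pairs and `j` colours is not reducible to Ramsey for pairs
and `k - 1` colours (`no_rt`, `squash`). So below some condition the colour `i` is syndetic
(`syndetic`). In the same way, every persistently possible pattern for the colour `i` can be
extended (`pattern_ext`), to an infinite solution (`extend`). Now take a solution `X` of colour `i`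
of the form `o + 2 S`, for the instance of a fixed `f`. By the reduction some finite part
`o + 2 D` of it computes two members `a < b` of a homogeneous set, and if the row of `a` is then
changed to the other value, `D` must not be persistently possible any more. A limit of windows
avoiding all such `D` is still syndetic in the colour `i`; by the pigeonhole principle and
Ramsey's theorem there is a solution `o + 2 S` with a shift of `S` contained in this limit, a
contradiction (`no_red`).
-/

set_option autoImplicit false

namespace Pool.Agent.Results.MP_6f9266_lc.NoUniformReduction

/-! ### Definitions used in the statement -/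

/-- The colouring `f` of the pairs `a < b` with `j` colours is stable: every row converges. -/
def Stable {j : ℕ} (f : ℕ → ℕ → Fin j) : Prop := ∀ a, ∃ v, ∀ᶠ b in Filter.atTop, f a b = v

/-- `H` (given by its characteristic function) is an infinite set all of whose pairs `a < b` have
the same colour. -/
def RTSol {j : ℕ} (f : ℕ → ℕ → Fin j) (H : ℕ → Bool) : Prop :=
  {n | H n = true}.Infinite ∧ ∃ v, ∀ a b, a < b → H a = true → H b = true → f a b = v

/-- `X` (given by its characteristic function) is an infinite set such that all sums of exactly
two (distinct) elements of `X` have the same colour. -/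
def HTSol {k : ℕ} (c : ℕ → Fin k) (X : ℕ → Bool) : Prop :=
  {n | X n = true}.Infinite ∧ ∃ v, ∀ x y, x < y → X x = true → X y = true → c (x + y) = v

/-! ### The result -/

open Run7.h628.Weih

/-- For `j ≥ 2` and `k ≤ j`: there are no `Φ` and `Ψ`, continuous on the relevant domains, such that
`Φ f` is an instance of `HT^{=2}_k` for every stable `f`, and `Ψ (f, X)` is an infinite homogeneous
set for `f`, for every solution `X` of `Φ f`. -/
theorem result (j k : ℕ) (hj : 2 ≤ j) (hk : k ≤ j) :
    ¬ ∃ (Φ : (ℕ → ℕ → Fin j) → (ℕ → Fin k))
        (Ψ : (ℕ → ℕ → Fin j) × (ℕ → Bool) → (ℕ → Bool)),
      ContinuousOn Φ {f | Stable f} ∧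
      ContinuousOn Ψ {p | Stable p.1 ∧ HTSol (Φ p.1) p.2} ∧
      ∀ f X, Stable f → HTSol (Φ f) X → RTSol f (Ψ (f, X)) := by
  rintro ⟨Φ, Ψ, h1, h2, h3⟩
  have : Nontrivial (Fin j) := Fin.nontrivial_iff_two_le.2 hj
  have hcard : Fintype.card (Fin k) ≤ Fintype.card (Fin j) := by
    rw [Fintype.card_fin, Fintype.card_fin]
    exact hk
  exact no_red (Ψ := fun f X => Ψ (f, X)) hcard (Φ (fun _ _ => ⟨0, by omega⟩) 0)
    ⟨modulus_fst h1, modulus_snd h2, h3⟩

end Pool.Agent.Results.MP_6f9266_lc.NoUniformReduction
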